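import Pool.Agent.Helper29.SierLow.Step

/-!
# Lower bound for the packing chromatic number of Sierpinski triangle graphs: base cases for one colour

* `base_single`: blocks `ST m` with `2 ^ m ≤ c`: at most one vertex of a `c`-packing.
* `base_comp`: blocks `ST (j + 1)` with `2 ^ j ≤ c`: at most one vertex in each of the three copies.
The remaining inequality is a finite check (`chkS`, `chkC`).
-/

set_option autoImplicit false

namespace Pool.Agent.Helper29.SierLow

open Pool.Agent.Helper32.SierTri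

/-- A list which contains all vertices of `ST n`. -/
def ptl : ℕ → List Pt
  | 0 => [(0, 0), (1, 0), (0, 1)]
  | n + 1 => ptl n ++ (ptl n).map (fun p => (p.1 + 2 ^ n, p.2)) ++
      (ptl n).map (fun p => (p.1, p.2 + 2 ^ n))

theorem mem_ptl {n : ℕ} {p : Pt} (h : p ∈ pts n) : p ∈ ptl n := by
  induction n generalizing p with
  | zero => simpa [ptl] using mem_pts_zero.1 h
  | succ n ih =>
    obtain ⟨i, p', hp', rfl⟩ := mem_pts_succ.1 h
    have h1 := ih hp'
    rw [ptl, List.mem_append, List.mem_append, List.mem_map, List.mem_map]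
    fin_cases i
    · left; left
      have : p' + K n 0 = p' := by ext <;> simp [K]
      exact this ▸ h1
    · left; right
      exact ⟨p', h1, by ext <;> simp [K]⟩
    · right
      exact ⟨p', h1, by ext <;> simp [K]⟩

/-- The indicator of `0`. -/
def z0 (n : ℕ) : ℤ := if n = 0 then 1 else 0

theorem z0_of {P : Prop} [Decidable P] {n : ℕ} (h : P ↔ n = 0) :
    (if P then (1 : ℤ) else 0) = z0 n :=
  if_congr h rfl rfl

/-- The finite check for single vertices: `s = 2 ^ m`. -/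
def chkS (c s : ℕ) (q a : ℤ) (f : ℕ → ℤ) (p : Pt) : Bool :=
  decide (q * (2 - (z0 (p.1 + p.2) + z0 (s - p.1) + z0 (s - p.2))) ≤
    2 * a + 2 * (f (min c (p.1 + p.2)) + f (min c (s - p.1)) + f (min c (s - p.2))))

theorem base_single {c m : ℕ} (hm : 2 ^ m ≤ c) {f : ℕ → ℤ} {q a : ℤ}
    (hanti : ∀ d e, 1 ≤ d → d ≤ e → e ≤ c → f e ≤ f d)
    (h0 : 0 ≤ a + 3 * f c)
    (h1 : ∀ p ∈ ptl m, chkS c (2 ^ m) q a f p = true)
    (X : Unit → Finset Pt) (hX : Pk (fun _ => c) m X) :
    Ineq (fun _ => c) (fun d => f (d ())) q a m X := by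
  intro d hd
  have hcard : (X ()).card ≤ 1 := by
    rw [Finset.card_le_one]
    intro u hu v hv
    by_contra huv
    exact hX.pk () u hu v hv huv ((wk_diam (hX.sub () hu) (hX.sub () hv)).mono hm)
  have hc : 1 ≤ c := le_trans Nat.one_le_two_pow hm
  simp only [Finset.univ_unique, PUnit.default_eq_unit, Finset.sum_singleton, zc]
  rcases Finset.card_le_one_iff_subset_singleton.1 hcard with ⟨p, hp⟩
  rcases Finset.subset_singleton_iff.1 hp with hp | hp
  · rw [hp]
    have h2 : ∀ i, f c ≤ f (d i ()) := by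
      intro i
      rcases hd i () with ⟨-, h3⟩ | ⟨h3, h4, -⟩
      · rw [hp] at h3
        exact absurd h3 (Finset.notMem_empty _)
      · exact hanti _ _ h3 h4 le_rfl
    have e0 := h2 0
    have e1 := h2 1
    have e2 := h2 2
    simp only [Finset.card_empty, Finset.notMem_empty, if_false, Fin.sum_univ_three]
    push_cast
    linarith
  · have hpm : p ∈ pts m := hX.sub () (by rw [hp]; exact Finset.mem_singleton_self p)
    have h2 : ∀ i, f (min c (D m i p)) ≤ f (d i ()) := by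
      intro i
      rcases hd i () with ⟨h3, h4⟩ | ⟨h3, h4, h5⟩
      · rw [hp, Finset.mem_singleton] at h4
        rw [h3, (D_zero hpm i).2 h4.symm, Nat.min_zero]
      · have h6 : d i () ≤ D m i p := by
          by_contra h7
          exact h5 p (by rw [hp]; exact Finset.mem_singleton_self p)
            ((wk_corner hpm i).mono (by omega))
        exact hanti _ _ h3 (le_min h4 h6) (min_le_left _ _)
    have h3 : ∀ i, (if K m i ∈ X () then (1 : ℤ) else 0) = z0 (D m i p) := by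
      intro i
      apply z0_of
      rw [hp, Finset.mem_singleton, D_zero hpm i]
      exact eq_comm
    have h4 := h1 p (mem_ptl hpm)
    unfold chkS at h4
    rw [decide_eq_true_iff] at h4
    have e0 := h2 0
    have e1 := h2 1
    have e2 := h2 2
    simp only [Fin.sum_univ_three, h3]
    rw [hp, Finset.card_singleton]
    simp only [D] at e0 e1 e2 ⊢
    push_cast
    linarith

/-! ### Three blocks -/

/-- Distance of the extreme vertex `i` from an optional vertex (`c + 1` if there is none). -/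
def Dn (c s : ℕ) (i : Fin 3) : Option Pt → ℕ
  | none => c + 1
  | some p => match i with
    | 0 => p.1 + p.2
    | 1 => s - p.1
    | 2 => s - p.2

/-- The number of vertices. -/
def ct : Option Pt → ℤ
  | none => 0
  | some _ => 1

/-- The condition at the vertex shared by the copies `i` and `j`. -/
def glu (c s : ℕ) (i j k : Fin 3) (o o' : Option Pt) : Bool :=
  (decide (Dn c s j o = 0) == decide (Dn c s i o' = 0)) &&
  (decide (Dn c s j o = 0) || (decide (c < Dn c s j o + Dn c s i o') &&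
    decide (c < Dn c s k o + s + Dn c s k o')))

/-- The inequality for three blocks. -/
def fin3 (c s : ℕ) (q a : ℤ) (f : ℕ → ℤ) (o0 o1 o2 : Option Pt) : Bool :=
  decide (q * (2 * (ct o0 + ct o1 + ct o2 -
      (z0 (Dn c s 1 o0) + z0 (Dn c s 2 o0) + z0 (Dn c s 2 o1))) -
      (z0 (Dn c s 0 o0) + z0 (Dn c s 1 o1) + z0 (Dn c s 2 o2))) ≤
    2 * a + 2 * (f (min c (min (Dn c s 0 o0) (s + min (Dn c s 0 o1) (Dn c s 0 o2)))) +
      f (min c (min (Dn c s 1 o1) (s + min (Dn c s 1 o0) (Dn c s 1 o2)))) +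
      f (min c (min (Dn c s 2 o2) (s + min (Dn c s 2 o0) (Dn c s 2 o1))))))

/-- A list which contains `none` and all vertices of `ST j`, `s = 2 ^ j`. -/
def lat (s : ℕ) : List (Option Pt) :=
  none :: (List.range (s + 1)).flatMap fun x => (List.range (s + 1 - x)).map fun y => some (x, y)

theorem none_mem_lat (s : ℕ) : none ∈ lat s := List.mem_cons_self

theorem some_mem_lat {s : ℕ} {p : Pt} (h : p.1 + p.2 ≤ s) : some p ∈ lat s := by
  refine List.mem_cons_of_mem _ (List.mem_flatMap.2 ⟨p.1, List.mem_range.2 (by omega), ?_⟩)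
  exact List.mem_map.2 ⟨p.2, List.mem_range.2 (by omega), rfl⟩

/-- The finite check. -/
def chkC (c s : ℕ) (q a : ℤ) (f : ℕ → ℤ) : Bool :=
  (lat s).all fun o0 => (lat s).all fun o1 => !(glu c s 0 1 2 o0 o1) ||
    (lat s).all fun o2 => !(glu c s 0 2 1 o0 o2) || !(glu c s 1 2 0 o1 o2) ||
      fin3 c s q a f o0 o1 o2

theorem chkC_spec {c s : ℕ} {q a : ℤ} {f : ℕ → ℤ} (h : chkC c s q a f = true)
    {o0 o1 o2 : Option Pt} (h0 : o0 ∈ lat s) (h1 : o1 ∈ lat s) (h2 : o2 ∈ lat s)
    (g01 : glu c s 0 1 2 o0 o1 = true) (g02 : glu c s 0 2 1 o0 o2 = true)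
    (g12 : glu c s 1 2 0 o1 o2 = true) : fin3 c s q a f o0 o1 o2 = true := by
  unfold chkC at h
  rw [List.all_eq_true] at h
  have h3 := h o0 h0
  rw [List.all_eq_true] at h3
  have h4 := h3 o1 h1
  rw [g01, Bool.not_true, Bool.false_or, List.all_eq_true] at h4
  have h5 := h4 o2 h2
  rw [g02, g12, Bool.not_true, Bool.false_or, Bool.false_or] at h5
  exact h5

/-- `o` represents the set `P`. -/
def Rep (P : Finset Pt) (o : Option Pt) : Prop :=
  (o = none ∧ P = ∅) ∨ ∃ p, o = some p ∧ P = {p}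

theorem exists_rep {P : Finset Pt} (h : P.card ≤ 1) : ∃ o, Rep P o := by
  rcases Finset.card_le_one_iff_subset_singleton.1 h with ⟨p, hp⟩
  rcases Finset.subset_singleton_iff.1 hp with hp | hp
  · exact ⟨none, Or.inl ⟨rfl, hp⟩⟩
  · exact ⟨some p, Or.inr ⟨p, rfl, hp⟩⟩

theorem Rep.ct {P : Finset Pt} {o : Option Pt} (h : Rep P o) : (P.card : ℤ) = ct o := by
  rcases h with ⟨rfl, rfl⟩ | ⟨p, rfl, rfl⟩
  · rfl
  · rfl

theorem Dn_some (c j : ℕ) (i : Fin 3) (p : Pt) : Dn c (2 ^ j) i (some p) = D j i p := by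
  fin_cases i <;> rfl

theorem Rep.mem_iff {c j : ℕ} {P : Finset Pt} {o : Option Pt} (h : Rep P o) (hP : P ⊆ pts j)
    (i : Fin 3) : K j i ∈ P ↔ Dn c (2 ^ j) i o = 0 := by
  rcases h with ⟨rfl, rfl⟩ | ⟨p, rfl, rfl⟩
  · exact ⟨fun h => absurd h (Finset.notMem_empty _), fun h => absurd h (Nat.succ_ne_zero c)⟩
  · rw [Dn_some, D_zero (hP (Finset.mem_singleton_self p)), Finset.mem_singleton]
    exact eq_comm

theorem Rep.mem_lat {j : ℕ} {P : Finset Pt} {o : Option Pt} (h : Rep P o) (hP : P ⊆ pts j) :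
    o ∈ lat (2 ^ j) := by
  rcases h with ⟨rfl, rfl⟩ | ⟨p, rfl, rfl⟩
  · exact none_mem_lat _
  · exact some_mem_lat (pts_bnd (hP (Finset.mem_singleton_self p)))

theorem glu_of {c j : ℕ} {X : Finset Pt}
    (h : ∀ u ∈ X, ∀ v ∈ X, u ≠ v → ¬ Wk (j + 1) c u v) {i i' : Fin 3} (hi : i ≠ i') (k : Fin 3)
    {o o' : Option Pt} (ho : Rep (part j i X) o) (ho' : Rep (part j i' X) o') :
    glu c (2 ^ j) i i' k o o' = true := by
  have s1 : part j i X ⊆ pts j := Finset.filter_subset _ _
  have s2 : part j i' X ⊆ pts j := Finset.filter_subset _ _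
  have e1 : Dn c (2 ^ j) i' o = 0 ↔ K j i + K j i' ∈ X := by
    rw [← ho.mem_iff s1 i', mem_part, add_comm (K j i')]
    exact ⟨fun h => h.2, fun h => ⟨K_mem j i', h⟩⟩
  have e2 : Dn c (2 ^ j) i o' = 0 ↔ K j i + K j i' ∈ X := by
    rw [← ho'.mem_iff s2 i, mem_part]
    exact ⟨fun h => h.2, fun h => ⟨K_mem j i, h⟩⟩
  unfold glu
  by_cases h0 : K j i + K j i' ∈ X
  · rw [decide_eq_true (e1.2 h0), decide_eq_true (e2.2 h0)]
    rfl
  · have n1 : ¬ Dn c (2 ^ j) i' o = 0 := fun h1 => h0 (e1.1 h1)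
    have n2 : ¬ Dn c (2 ^ j) i o' = 0 := fun h1 => h0 (e2.1 h1)
    rw [decide_eq_false n1, decide_eq_false n2, BEq.rfl, Bool.true_and, Bool.false_or,
      Bool.and_eq_true, decide_eq_true_iff, decide_eq_true_iff]
    have hn : ∀ l, Dn c (2 ^ j) l none = c + 1 := fun l => rfl
    rcases ho with ⟨rfl, -⟩ | ⟨u, rfl, hu⟩
    · rw [hn i', hn k]
      have h2 : 0 < 2 ^ j := by positivity
      exact ⟨by omega, by omega⟩
    rcases ho' with ⟨rfl, -⟩ | ⟨v, rfl, hv⟩
    · rw [hn i, hn k]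
      have h2 : 0 < 2 ^ j := by positivity
      exact ⟨by omega, by omega⟩
    have hu' : u ∈ part j i X := by rw [hu]; exact Finset.mem_singleton_self u
    have hv' : v ∈ part j i' X := by rw [hv]; exact Finset.mem_singleton_self v
    rw [mem_part] at hu' hv'
    have hne : u + K j i ≠ v + K j i' := by
      intro e
      obtain ⟨h1, -⟩ := copy_inter hu'.1 hv'.1 hi e
      apply n1
      rw [Dn_some, D_zero hu'.1]
      exact h1
    have h3 := h _ hu'.2 _ hv'.2 hne
    rw [Dn_some, Dn_some, Dn_some, Dn_some]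
    constructor
    · by_contra h4
      exact h3 ((wk_glue hu'.1 hv'.1 i i').mono (not_lt.1 h4))
    · by_contra h4
      exact h3 ((wk_around hu'.1 hv'.1 hi k).mono (not_lt.1 h4))

theorem outer_le {c j : ℕ} {X : Finset Pt} {i : Fin 3} {o : Fin 3 → Option Pt} {d : ℕ}
    (ho : ∀ l, Rep (part j l X) (o l)) (hd : d ≤ c)
    (h : ∀ u ∈ X, ¬ Wk (j + 1) (d - 1) (K (j + 1) i) u) (h1 : 1 ≤ d) (l : Fin 3) :
    d ≤ Dn c (2 ^ j) i (o l) + if i = l then 0 else 2 ^ j := by
  rcases ho l with ⟨e, -⟩ | ⟨u, e, hu⟩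
  · rw [e]
    simp only [Dn]
    omega
  · have hu' : u ∈ part j l X := by rw [hu]; exact Finset.mem_singleton_self u
    rw [mem_part] at hu'
    rw [e, Dn_some]
    by_contra h2
    refine h _ hu'.2 ((wk_corner (pts_shift hu'.1 l) i).mono ?_)
    rw [D_shift hu'.1]
    omega

theorem base_comp {c j : ℕ} (hj : 2 ^ j ≤ c) {f : ℕ → ℤ} {q a : ℤ} (hq : 0 ≤ q)
    (hanti : ∀ d e, 1 ≤ d → d ≤ e → e ≤ c → f e ≤ f d)
    (hchk : chkC c (2 ^ j) q a f = true)
    (X : Unit → Finset Pt) (hX : Pk (fun _ => c) (j + 1) X) :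
    Ineq (fun _ => c) (fun d => f (d ())) q a (j + 1) X := by
  intro d hd
  have hcard : ∀ i, (part j i (X ())).card ≤ 1 := by
    intro i
    rw [Finset.card_le_one]
    intro u hu v hv
    by_contra huv
    rw [mem_part] at hu hv
    exact hX.pk () _ hu.2 _ hv.2 (fun e => huv (add_right_cancel e))
      (((wk_diam hu.1 hv.1).mono hj).shift i)
  choose o ho using fun i => exists_rep (hcard i)
  have hs : ∀ i, part j i (X ()) ⊆ pts j := fun i => Finset.filter_subset _ _
  have hfin := chkC_spec hchk ((ho 0).mem_lat (hs 0)) ((ho 1).mem_lat (hs 1))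
    ((ho 2).mem_lat (hs 2)) (glu_of (hX.pk ()) (by decide) 2 (ho 0) (ho 1))
    (glu_of (hX.pk ()) (by decide) 1 (ho 0) (ho 2)) (glu_of (hX.pk ()) (by decide) 0 (ho 1) (ho 2))
  unfold fin3 at hfin
  rw [decide_eq_true_iff] at hfin
  -- the outer vertices
  have hz : ∀ i, (if K (j + 1) i ∈ X () then (1 : ℤ) else 0) = z0 (Dn c (2 ^ j) i (o i)) := by
    intro i
    apply z0_of
    rw [← (ho i).mem_iff (hs i) i, mem_part, K_succ]
    exact ⟨fun h => ⟨K_mem j i, h⟩, fun h => h.2⟩
  have hg : ∀ i l, (if K j i + K j l ∈ X () then (1 : ℤ) else 0) =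
      z0 (Dn c (2 ^ j) l (o i)) := by
    intro i l
    apply z0_of
    rw [← (ho i).mem_iff (hs i) l, mem_part, add_comm (K j l)]
    exact ⟨fun h => ⟨K_mem j l, h⟩, fun h => h.2⟩
  have hf : ∀ i m, (Dn c (2 ^ j) i (o i) = 0 → m = 0) →
      ((∀ l, d i () ≤ Dn c (2 ^ j) i (o l) + if i = l then 0 else 2 ^ j) → d i () ≤ m) →
      m ≤ c → f m ≤ f (d i ()) := by
    intro i m h1 h2 h3
    rcases hd i () with ⟨h4, h5⟩ | ⟨h4, h5, h6⟩
    · have h7 : Dn c (2 ^ j) i (o i) = 0 := by
        rw [← (ho i).mem_iff (hs i) i, mem_part]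
        rw [K_succ] at h5
        exact ⟨K_mem j i, h5⟩
      rw [h4, h1 h7]
    · exact hanti _ _ h4 (h2 (outer_le ho h5 h6 h4)) h3
  have f0 := hf 0 (min c (min (Dn c (2 ^ j) 0 (o 0))
    (2 ^ j + min (Dn c (2 ^ j) 0 (o 1)) (Dn c (2 ^ j) 0 (o 2)))))
    (fun h => by rw [h, Nat.zero_min, Nat.min_zero]) (fun h => by
      have h0 := h 0
      have h1 := h 1
      have h2 := h 2
      rw [if_pos rfl] at h0
      rw [if_neg (by decide)] at h1 h2
      have h3 : d 0 () ≤ c := by
        rcases hd 0 () with h4 | h4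
        · rw [h4.1]; exact Nat.zero_le _
        · exact h4.2.1
      omega) (min_le_left _ _)
  have f1 := hf 1 (min c (min (Dn c (2 ^ j) 1 (o 1))
    (2 ^ j + min (Dn c (2 ^ j) 1 (o 0)) (Dn c (2 ^ j) 1 (o 2)))))
    (fun h => by rw [h, Nat.zero_min, Nat.min_zero]) (fun h => by
      have h0 := h 1
      have h1 := h 0
      have h2 := h 2
      rw [if_pos rfl] at h0
      rw [if_neg (by decide)] at h1 h2
      have h3 : d 1 () ≤ c := by
        rcases hd 1 () with h4 | h4
        · rw [h4.1]; exact Nat.zero_le _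
        · exact h4.2.1
      omega) (min_le_left _ _)
  have f2 := hf 2 (min c (min (Dn c (2 ^ j) 2 (o 2))
    (2 ^ j + min (Dn c (2 ^ j) 2 (o 0)) (Dn c (2 ^ j) 2 (o 1)))))
    (fun h => by rw [h, Nat.zero_min, Nat.min_zero]) (fun h => by
      have h0 := h 2
      have h1 := h 0
      have h2 := h 1
      rw [if_pos rfl] at h0
      rw [if_neg (by decide)] at h1 h2
      have h3 : d 2 () ≤ c := by
        rcases hd 2 () with h4 | h4
        · rw [h4.1]; exact Nat.zero_le _
        · exact h4.2.1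
      omega) (min_le_left _ _)
  have hc := card_part (hX.sub ())
  have hc' : ((X ()).card : ℤ) + (z0 (Dn c (2 ^ j) 1 (o 0)) + z0 (Dn c (2 ^ j) 2 (o 0)) +
      z0 (Dn c (2 ^ j) 2 (o 1))) ≤ ct (o 0) + ct (o 1) + ct (o 2) := by
    rw [← (ho 0).ct, ← (ho 1).ct, ← (ho 2).ct, ← hg 0 1, ← hg 0 2, ← hg 1 2]
    exact_mod_cast hc
  simp only [Finset.univ_unique, PUnit.default_eq_unit, Finset.sum_singleton, zc,
    Fin.sum_univ_three, hz]
  nlinarith [mul_le_mul_of_nonneg_left hc' hq]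

end Pool.Agent.Helper29.SierLow
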