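import Pool.Agent.Helper29.SierLow.Low

/-!
# Lower bound for the packing chromatic number of Sierpinski triangle graphs: the statement
-/

set_option autoImplicit false

namespace Pool.Agent.Helper29.SierLow

open Pool.Agent.Helper32.SierTri

/-- Every `ST n` has a packing colouring: different colours for different vertices. -/
theorem exists_coloring (n : ℕ) : ∃ k, ∃ col : Vert n → ℕ, IsPackingColoring (ST n) k col := by
  classical
  have hf : Finite (Vert n) := by
    refine Finite.of_injective (fun v : Vert n => (⟨v.1, mem_pts.2 v.2⟩ : {p // p ∈ pts n})) ?_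
    intro u v h
    exact Subtype.ext (Subtype.mk.inj h)
  obtain ⟨N, ⟨e⟩⟩ := Finite.exists_equiv_fin (Vert n)
  refine ⟨N, fun v => (e v : ℕ) + 1, fun v => ⟨Nat.le_add_left 1 _, (e v).2⟩, ?_⟩
  intro u v huv h
  exact absurd (e.injective (Fin.ext (Nat.succ_injective h))) huv

/-- For `n ≥ 10` the packing chromatic number of `ST n` is at least `15`. -/
theorem chi_lower {n : ℕ} (hn : 10 ≤ n) : 15 ≤ packingChromaticNumber (ST n) := by
  obtain ⟨k, col, hcol⟩ := exists_coloring n
  have h1 : ({k | ∃ c : Vert n → ℕ, IsPackingColoring (ST n) k c}).Nonempty := ⟨k, col, hcol⟩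
  obtain ⟨c, hc1, hc2⟩ := Nat.sInf_mem h1
  by_contra h2
  refine no_coloring hn ⟨c, fun v => ⟨(hc1 v).1, (hc1 v).2.trans ?_⟩, hc2⟩
  exact Nat.lt_succ_iff.1 (not_le.1 h2)

end Pool.Agent.Helper29.SierLow
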