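import Pool.Agent.Helper32.SierTri.Defs

/-!
# Lower bound for the packing chromatic number of Sierpinski triangle graphs: geometry

`pts n` are the vertices of `ST n`, `K n i` its three extreme vertices; `ST (n + 1)` consists of the three copies
`pts n + K n i`, and the copies `i` and `j` share the vertex `K n i + K n j`.
`Wk n l p q`: there is a walk of length at most `l` from `p` to `q` in `ST n`.
-/

set_option autoImplicit false

namespace Pool.Agent.Helper29.SierLow

open Pool.Agent.Helper32.SierTri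

/-- Lattice points. -/
abbrev Pt := ℕ × ℕ

/-- The extreme vertices. -/
def K (n : ℕ) : Fin 3 → Pt
  | 0 => (0, 0)
  | 1 => (2 ^ n, 0)
  | 2 => (0, 2 ^ n)

/-- The vertices of `ST n`. -/
def pts (n : ℕ) : Finset Pt := (base n).biUnion tri

theorem mem_pts {n : ℕ} {p : Pt} : p ∈ pts n ↔ ∃ t ∈ base n, p ∈ tri t := by
  unfold pts
  rw [Finset.mem_biUnion]

theorem mem_base_succ {n : ℕ} {t : Pt} :
    t ∈ base (n + 1) ↔ ∃ i, ∃ t' ∈ base n, t = t' + K n i := by
  have e : base (n + 1) = base n ∪ (base n).image (fun p => (p.1 + 2 ^ n, p.2)) ∪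
    (base n).image (fun p => (p.1, p.2 + 2 ^ n)) := rfl
  rw [e, Finset.mem_union, Finset.mem_union, Finset.mem_image, Finset.mem_image]
  constructor
  · rintro ((h | ⟨t', h, rfl⟩) | ⟨t', h, rfl⟩)
    · exact ⟨0, t, h, by simp [K]⟩
    · exact ⟨1, t', h, by ext <;> simp [K]⟩
    · exact ⟨2, t', h, by ext <;> simp [K]⟩
  · rintro ⟨i, t', h, rfl⟩
    fin_cases i
    · left; left
      have : t' + K n 0 = t' := by ext <;> simp [K]
      exact this ▸ h
    · left; right
      exact ⟨t', h, by ext <;> simp [K]⟩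
    · right
      exact ⟨t', h, by ext <;> simp [K]⟩

theorem mem_tri {t p : Pt} : p ∈ tri t ↔ p = (t.1, t.2) ∨ p = (t.1 + 1, t.2) ∨ p = (t.1, t.2 + 1) := by
  simp [tri]

theorem tri_shift {t p o : Pt} (h : p ∈ tri t) : p + o ∈ tri (t + o) := by
  rw [mem_tri] at h ⊢
  rcases h with rfl | rfl | rfl
  · left; rfl
  · right; left
    ext
    · simp only [Prod.fst_add]; omega
    · simp only [Prod.snd_add]
  · right; right
    ext
    · simp only [Prod.fst_add]
    · simp only [Prod.snd_add]; omega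

theorem tri_unshift {t p o : Pt} (h : p ∈ tri (t + o)) : ∃ p' ∈ tri t, p = p' + o := by
  rw [mem_tri] at h
  rcases h with rfl | rfl | rfl
  · exact ⟨(t.1, t.2), by simp [tri], rfl⟩
  · refine ⟨(t.1 + 1, t.2), by simp [tri], ?_⟩
    ext
    · simp only [Prod.fst_add]; omega
    · simp only [Prod.snd_add]
  · refine ⟨(t.1, t.2 + 1), by simp [tri], ?_⟩
    ext
    · simp only [Prod.fst_add]
    · simp only [Prod.snd_add]; omega

theorem mem_pts_succ {n : ℕ} {p : Pt} :
    p ∈ pts (n + 1) ↔ ∃ i, ∃ p' ∈ pts n, p = p' + K n i := by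
  rw [mem_pts]
  constructor
  · rintro ⟨t, ht, hp⟩
    obtain ⟨i, t', ht', rfl⟩ := mem_base_succ.1 ht
    obtain ⟨p', hp', rfl⟩ := tri_unshift hp
    exact ⟨i, p', mem_pts.2 ⟨t', ht', hp'⟩, rfl⟩
  · rintro ⟨i, p', hp', rfl⟩
    obtain ⟨t', ht', hp''⟩ := mem_pts.1 hp'
    exact ⟨t' + K n i, mem_base_succ.2 ⟨i, t', ht', rfl⟩, tri_shift hp''⟩

theorem pts_shift {n : ℕ} {p : Pt} (h : p ∈ pts n) (i : Fin 3) : p + K n i ∈ pts (n + 1) :=
  mem_pts_succ.2 ⟨i, p, h, rfl⟩

theorem mem_pts_zero {p : Pt} : p ∈ pts 0 ↔ p = (0, 0) ∨ p = (1, 0) ∨ p = (0, 1) := by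
  rw [mem_pts]
  simp [base, mem_tri]

theorem K_succ (n : ℕ) (i : Fin 3) : K (n + 1) i = K n i + K n i := by
  fin_cases i
  · rfl
  · ext
    · simp [K]; ring
    · rfl
  · ext
    · rfl
    · simp [K]; ring

theorem K_mem (n : ℕ) (i : Fin 3) : K n i ∈ pts n := by
  induction n with
  | zero => rw [mem_pts_zero]; fin_cases i <;> simp [K]
  | succ n ih => rw [K_succ]; exact pts_shift ih i

theorem pts_bnd {n : ℕ} {p : Pt} (h : p ∈ pts n) : p.1 + p.2 ≤ 2 ^ n := by
  induction n generalizing p with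
  | zero => rcases mem_pts_zero.1 h with rfl | rfl | rfl <;> simp
  | succ n ih =>
    obtain ⟨i, p', hp', rfl⟩ := mem_pts_succ.1 h
    have h1 := ih hp'
    have h2 : (2 : ℕ) ^ (n + 1) = 2 ^ n + 2 ^ n := by ring
    rw [h2]
    fin_cases i <;> simp [K] <;> omega

/-! ### Walks -/

/-- There is a walk of length at most `l` from `p` to `q`. -/
inductive Wk (n : ℕ) : ℕ → Pt → Pt → Prop
  | refl {p : Pt} (h : p ∈ pts n) (l : ℕ) : Wk n l p p
  | step {l : ℕ} {p q r t : Pt} (h : Wk n l p q) (ht : t ∈ base n) (hq : q ∈ tri t)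
      (hr : r ∈ tri t) : Wk n (l + 1) p r

theorem Wk.mono {n l l' : ℕ} {p q : Pt} (h : Wk n l p q) (hl : l ≤ l') : Wk n l' p q := by
  induction h generalizing l' with
  | refl hp l => exact .refl hp l'
  | step h ht hq hr ih =>
    obtain ⟨m, rfl⟩ : ∃ m, l' = m + 1 := ⟨l' - 1, by omega⟩
    exact .step (ih (by omega)) ht hq hr

theorem Wk.trans {n l l' : ℕ} {p q r : Pt} (h : Wk n l p q) (h' : Wk n l' q r) :
    Wk n (l + l') p r := by
  induction h' with
  | refl hp l' => exact h.mono (Nat.le_add_right _ _)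
  | step h' ht hq hr ih => exact .step (ih h) ht hq hr

theorem Wk.left_mem {n l : ℕ} {p q : Pt} (h : Wk n l p q) : p ∈ pts n := by
  induction h with
  | refl hp l => exact hp
  | step h ht hq hr ih => exact ih

theorem Wk.right_mem {n l : ℕ} {p q : Pt} (h : Wk n l p q) : q ∈ pts n := by
  induction h with
  | refl hp l => exact hp
  | step h ht hq hr ih => exact mem_pts.2 ⟨_, ht, hr⟩

theorem Wk.symm {n l : ℕ} {p q : Pt} (h : Wk n l p q) : Wk n l q p := by
  induction h with
  | refl hp l => exact .refl hp l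
  | @step l p q r t h ht hq hr ih =>
    have h1 : Wk n 1 r q := .step (.refl (mem_pts.2 ⟨_, ht, hr⟩) 0) ht hr hq
    exact (h1.trans ih).mono (by omega)

theorem Wk.shift {n l : ℕ} {p q : Pt} (h : Wk n l p q) (i : Fin 3) :
    Wk (n + 1) l (p + K n i) (q + K n i) := by
  induction h with
  | refl hp l => exact .refl (pts_shift hp i) l
  | step h ht hq hr ih =>
    exact .step ih (mem_base_succ.2 ⟨i, _, ht, rfl⟩) (tri_shift hq) (tri_shift hr)

theorem Wk.zero {n : ℕ} {p q : Pt} (h : Wk n 0 p q) : p = q := by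
  cases h
  rfl

theorem Wk.walk {n l : ℕ} {p q : Pt} (h : Wk n l p q) : ∀ (u v : Vert n), u.1 = p → v.1 = q →
    ∃ w : (ST n).Walk u v, w.length ≤ l := by
  induction h with
  | refl hp l =>
    intro u v hu hv
    have huv : u = v := Subtype.ext (hu.trans hv.symm)
    subst huv
    exact ⟨.nil, Nat.zero_le _⟩
  | @step l p q r t h ht hq hr ih =>
    intro u v hu hv
    obtain ⟨x, hx⟩ : ∃ x : Vert n, x.1 = q := ⟨⟨q, t, ht, hq⟩, rfl⟩
    obtain ⟨w, hw⟩ := ih u x hu hx
    by_cases hqr : q = r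
    · have h1 : x = v := Subtype.ext (hx.trans (hqr.trans hv.symm))
      subst h1
      exact ⟨w, hw.trans (Nat.le_succ _)⟩
    · have h1 : (ST n).Adj x v :=
        ⟨fun h2 => hqr (hx.symm.trans ((congrArg Subtype.val h2).trans hv)), t, ht,
          by rw [hx]; exact hq, by rw [hv]; exact hr⟩
      refine ⟨w.concat h1, ?_⟩
      rw [SimpleGraph.Walk.length_concat]
      omega

theorem Wk.dist {n l : ℕ} {u v : Vert n} (h : Wk n l u.1 v.1) : (ST n).dist u v ≤ l := by
  obtain ⟨w, hw⟩ := h.walk u v rfl rfl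
  exact (SimpleGraph.dist_le w).trans hw

/-! ### Distances to the extreme vertices -/

/-- The distance from the extreme vertex `i` (as a function of the coordinates). -/
def D (n : ℕ) (i : Fin 3) (p : Pt) : ℕ :=
  match i with
  | 0 => p.1 + p.2
  | 1 => 2 ^ n - p.1
  | 2 => 2 ^ n - p.2

theorem D_shift {n : ℕ} {p : Pt} (h : p ∈ pts n) (i j : Fin 3) :
    D (n + 1) i (p + K n j) = D n i p + (if i = j then 0 else 2 ^ n) := by
  have h1 := pts_bnd h
  have h2 : (2 : ℕ) ^ (n + 1) = 2 ^ n + 2 ^ n := by ring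
  fin_cases i <;> fin_cases j <;> simp [K, D, h2] <;> omega

theorem D_K (n : ℕ) (i j : Fin 3) : D n i (K n j) = if i = j then 0 else 2 ^ n := by
  fin_cases i <;> fin_cases j <;> simp [K, D]

theorem D_le {n : ℕ} {p : Pt} (h : p ∈ pts n) (i : Fin 3) : D n i p ≤ 2 ^ n := by
  have h1 := pts_bnd h
  fin_cases i <;> simp [D]
  exact h1

theorem D_zero {n : ℕ} {p : Pt} (h : p ∈ pts n) (i : Fin 3) : D n i p = 0 ↔ p = K n i := by
  have h1 := pts_bnd h
  obtain ⟨x, y⟩ := p
  simp only at h1
  fin_cases i <;> simp only [D, K, Prod.mk.injEq] <;> constructor <;> intro h2 <;> omega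

theorem wk_corner {n : ℕ} {p : Pt} (h : p ∈ pts n) (i : Fin 3) : Wk n (D n i p) (K n i) p := by
  induction n generalizing p with
  | zero =>
    by_cases hp : p = K 0 i
    · rw [hp]
      exact .refl (K_mem 0 i) _
    · have h1 : D 0 i p ≠ 0 := fun h2 => hp ((D_zero h i).1 h2)
      have h2 : Wk 0 1 (K 0 i) p := by
        refine .step (t := (0, 0)) (.refl (K_mem 0 i) 0) (by simp [base]) ?_ ?_
        · rw [mem_tri]; fin_cases i <;> simp [K]
        · rw [mem_tri]
          simpa using mem_pts_zero.1 h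
      exact h2.mono (by omega)
  | succ n ih =>
    obtain ⟨j, p', hp', rfl⟩ := mem_pts_succ.1 h
    rw [D_shift hp', K_succ]
    by_cases hij : i = j
    · subst hij
      rw [if_pos rfl, add_zero]
      exact (ih hp').shift i
    · rw [if_neg hij]
      have h1 := (ih (K_mem n j)).shift i
      rw [D_K, if_neg hij] at h1
      have h2 := (ih hp').shift j
      rw [add_comm (K n j) (K n i)] at h1
      rw [add_comm (D n i p')]
      exact h1.trans h2

/-- Two vertices of different copies: the path through the common vertex. -/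
theorem wk_glue {n : ℕ} {u v : Pt} (hu : u ∈ pts n) (hv : v ∈ pts n) (i j : Fin 3) :
    Wk (n + 1) (D n j u + D n i v) (u + K n i) (v + K n j) := by
  have h1 := ((wk_corner hu j).shift i).symm
  have h2 := (wk_corner hv i).shift j
  rw [add_comm (K n i) (K n j)] at h2
  exact h1.trans h2

/-- Two vertices of different copies: the path through the third copy. -/
theorem wk_around {n : ℕ} {u v : Pt} (hu : u ∈ pts n) (hv : v ∈ pts n) {i j : Fin 3}
    (hij : i ≠ j) (k : Fin 3) :
    Wk (n + 1) (D n k u + 2 ^ n + D n k v) (u + K n i) (v + K n j) := by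
  have h1 := ((wk_corner hu k).shift i).symm
  have h2 := (wk_corner (K_mem n j) i).shift k
  rw [D_K, if_neg hij] at h2
  have h3 := (wk_corner hv k).shift j
  rw [add_comm (K n i) (K n k)] at h2
  rw [add_comm (K n j) (K n k)] at h2
  exact (h1.trans h2).trans (by rw [add_comm (K n k) (K n j)] at h3 ⊢; exact h3)

theorem wk_diam {n : ℕ} {u v : Pt} (hu : u ∈ pts n) (hv : v ∈ pts n) : Wk n (2 ^ n) u v := by
  induction n generalizing u v with
  | zero =>
    refine .step (t := (0, 0)) (.refl hu 0) (by simp [base]) ?_ ?_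
    · rw [mem_tri]; simpa using mem_pts_zero.1 hu
    · rw [mem_tri]; simpa using mem_pts_zero.1 hv
  | succ n ih =>
    obtain ⟨i, u', hu', rfl⟩ := mem_pts_succ.1 hu
    obtain ⟨j, v', hv', rfl⟩ := mem_pts_succ.1 hv
    have h2 : (2 : ℕ) ^ (n + 1) = 2 ^ n + 2 ^ n := by ring
    by_cases hij : i = j
    · subst hij
      exact ((ih hu' hv').shift i).mono (by rw [h2]; exact Nat.le_add_right _ _)
    · refine (wk_glue hu' hv' i j).mono ?_
      have h3 := D_le hu' j
      have h4 := D_le hv' i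
      omega

end Pool.Agent.Helper29.SierLow
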