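import Pool.Agent.Helper29.SierLow.Pair

/-!
# Lower bound for the packing chromatic number of Sierpinski triangle graphs: the count

For `n ≥ 10` the graph `ST n` has no packing `14`-colouring: the bounds for the sizes of the colour classes add up to
less than the number of vertices.
-/

set_option autoImplicit false

namespace Pool.Agent.Helper29.SierLow

open Pool.Agent.Helper32.SierTri

section

variable {ι : Type} [Fintype ι] {c : ι → ℕ}

theorem iter {F : (ι → ℕ) → ℤ} {q a : ℤ} {m : ℕ} (hq : 0 ≤ q) (hc : ∀ k, 1 ≤ c k)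
    (hF : ∀ x y : ι → ℕ, (∀ k, (x k = 0 ∧ y k = 0) ∨
      (1 ≤ x k ∧ x k ≤ c k ∧ y k = c k + 1 - x k)) → F x + F y ≤ 0)
    (hb : ∀ X, Pk c m X → Ineq c F q a m X) (k : ℕ) :
    ∀ X, Pk c (m + k) X → Ineq c F q (3 ^ k * a) (m + k) X := by
  induction k with
  | zero =>
    intro X hX
    rw [pow_zero, one_mul]
    exact hb X hX
  | succ k ih =>
    intro X hX
    have h := step hq hc hF ih X hX
    have e : (3 : ℤ) ^ (k + 1) * a = 3 * (3 ^ k * a) := by ring
    rw [e]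
    exact h

theorem zc_le_one {n : ℕ} {X : ι → Finset Pt} (h : Pk c n X) (p : Pt) : zc p X ≤ 1 := by
  unfold zc
  by_cases h1 : ∃ k, p ∈ X k
  · obtain ⟨k, hk⟩ := h1
    rw [Finset.sum_eq_single k]
    · rw [if_pos hk]
    · intro l _ hl
      rw [if_neg]
      exact fun h2 => Finset.disjoint_left.1 (h.dis l k hl) h2 hk
    · intro h2
      exact absurd (Finset.mem_univ k) h2
  · rw [Finset.sum_eq_zero]
    · exact zero_le_one
    · intro k _
      rw [if_neg]
      exact fun h2 => h1 ⟨k, h2⟩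

theorem final {F : (ι → ℕ) → ℤ} {q a B : ℤ} {m : ℕ} (hq : 0 ≤ q) (hc : ∀ k, 1 ≤ c k)
    (hF : ∀ x y : ι → ℕ, (∀ k, (x k = 0 ∧ y k = 0) ∨
      (1 ≤ x k ∧ x k ≤ c k ∧ y k = c k + 1 - x k)) → F x + F y ≤ 0)
    (hb : ∀ X, Pk c m X → Ineq c F q a m X)
    (hB : ∀ d : ι → ℕ, (∀ k, d k ≤ 1) → F d ≤ B) {n k : ℕ} (hn : n = m + k)
    (X : ι → Finset Pt) (hX : Pk c n X) :
    2 * q * ∑ k, ((X k).card : ℤ) ≤ 2 * (3 ^ k * a) + 3 * q + 6 * B := by
  classical
  subst hn
  have h1 := iter hq hc hF hb k X hX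
    (fun i l => if K (m + k) i ∈ X l then 0 else 1) (by
      intro i l
      by_cases h : K (m + k) i ∈ X l
      · left
        exact ⟨if_pos h, h⟩
      · right
        beta_reduce
        rw [if_neg h]
        refine ⟨le_refl _, hc l, ?_⟩
        intro u hu hw
        exact h (hw.zero ▸ hu))
  have h2 : ∀ i, F (fun l => if K (m + k) i ∈ X l then 0 else 1) ≤ B := by
    intro i
    apply hB
    intro l
    split_ifs
    · exact zero_le_one
    · exact le_refl _
  have h3 := h2 0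
  have h4 := h2 1
  have h5 := h2 2
  have z0 := zc_le_one hX (K (m + k) 0)
  have z1 := zc_le_one hX (K (m + k) 1)
  have z2 := zc_le_one hX (K (m + k) 2)
  simp only [Fin.sum_univ_three] at h1
  nlinarith [mul_le_mul_of_nonneg_left z0 hq, mul_le_mul_of_nonneg_left z1 hq,
    mul_le_mul_of_nonneg_left z2 hq]

end

/-- Potentials from a list. -/
def fl (l : List ℤ) (d : ℕ) : ℤ := l.getD d 0

/-- The conditions on the potential of one colour. -/
structure OK (c : ℕ) (l : List ℤ) (B : ℤ) : Prop where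
  anti : ∀ d < c, 1 ≤ d → fl l (d + 1) ≤ fl l d
  cmp : ∀ d < c + 1, 1 ≤ d → fl l d + fl l (c + 1 - d) ≤ 0
  zero : fl l 0 ≤ 0
  b0 : fl l 0 ≤ B
  b1 : fl l 1 ≤ B

theorem OK.mono {c : ℕ} {l : List ℤ} {B : ℤ} (h : OK c l B) :
    ∀ d e, 1 ≤ d → d ≤ e → e ≤ c → fl l e ≤ fl l d := by
  intro d e hd hde
  induction e, hde using Nat.le_induction with
  | base => exact fun _ => le_refl _
  | succ e hde ih =>
    intro he
    exact (h.anti e (by omega) (by omega)).trans (ih (by omega))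

theorem OK.glue {c : ℕ} {l : List ℤ} {B : ℤ} (h : OK c l B) (x y : Unit → ℕ)
    (hxy : ∀ k, (x k = 0 ∧ y k = 0) ∨
      (1 ≤ x k ∧ x k ≤ (fun _ : Unit => c) k ∧ y k = (fun _ : Unit => c) k + 1 - x k)) :
    (fun d : Unit → ℕ => fl l (d ())) x + (fun d : Unit → ℕ => fl l (d ())) y ≤ 0 := by
  change fl l (x ()) + fl l (y ()) ≤ 0
  rcases hxy () with ⟨h1, h2⟩ | ⟨h1, h2, h3⟩
  · rw [h1, h2]
    have := h.zero
    linarith
  · rw [h3]
    exact h.cmp _ (Nat.lt_succ_of_le h2) h1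

theorem OK.bound {c : ℕ} {l : List ℤ} {B : ℤ} (h : OK c l B) (d : Unit → ℕ)
    (hd : ∀ k, d k ≤ 1) : (fun d : Unit → ℕ => fl l (d ())) d ≤ B := by
  change fl l (d ()) ≤ B
  have h1 : d () = 0 ∨ d () = 1 := by
    have := hd ()
    omega
  rcases h1 with h1 | h1
  · rw [h1]; exact h.b0
  · rw [h1]; exact h.b1

theorem bound_single {c m : ℕ} (hm : 2 ^ m ≤ c) (l : List ℤ) (q a B : ℤ) (hq : 0 ≤ q)
    (ok : OK c l B) (h0 : 0 ≤ a + 3 * fl l c)
    (h1 : ∀ p ∈ ptl m, chkS c (2 ^ m) q a (fl l) p = true) {n k : ℕ} (hn : n = m + k)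
    (Y : Finset Pt) (hs : Y ⊆ pts n) (hY : ∀ u ∈ Y, ∀ v ∈ Y, u ≠ v → ¬ Wk n c u v) :
    2 * q * (Y.card : ℤ) ≤ 2 * (3 ^ k * a) + 3 * q + 6 * B := by
  have h := final (c := fun _ : Unit => c) hq (fun _ => Nat.one_le_two_pow.trans hm) ok.glue
    (base_single hm ok.mono h0 h1) ok.bound hn (fun _ => Y)
    ⟨fun _ => hs, fun _ => hY, fun k l hkl => absurd (Subsingleton.elim k l) hkl⟩
  simpa using h

theorem bound_comp {c j : ℕ} (hj : 2 ^ j ≤ c) (l : List ℤ) (q a B : ℤ) (hq : 0 ≤ q)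
    (ok : OK c l B) (h1 : chkC c (2 ^ j) q a (fl l) = true) {n k : ℕ} (hn : n = j + 1 + k)
    (Y : Finset Pt) (hs : Y ⊆ pts n) (hY : ∀ u ∈ Y, ∀ v ∈ Y, u ≠ v → ¬ Wk n c u v) :
    2 * q * (Y.card : ℤ) ≤ 2 * (3 ^ k * a) + 3 * q + 6 * B := by
  have h := final (c := fun _ : Unit => c) hq (fun _ => Nat.one_le_two_pow.trans hj) ok.glue
    (base_comp hj hq ok.mono h1) ok.bound hn (fun _ => Y)
    ⟨fun _ => hs, fun _ => hY, fun k l hkl => absurd (Subsingleton.elim k l) hkl⟩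
  simpa using h

theorem bound_pair {n k : ℕ} (hn : n = 1 + k) (Y Z : Finset Pt) (hs : Y ⊆ pts n)
    (hs' : Z ⊆ pts n) (hY : ∀ u ∈ Y, ∀ v ∈ Y, u ≠ v → ¬ Wk n 1 u v)
    (hZ : ∀ u ∈ Z, ∀ v ∈ Z, u ≠ v → ¬ Wk n 2 u v) (hd : Disjoint Y Z) :
    8 * ((Y.card : ℤ) + Z.card) ≤ 18 * 3 ^ k + 18 := by
  have h := final (c := cP) (F := FP) (q := 4) (a := 9) (B := 1) (by norm_num)
    (by decide) FP_glue base_pair (by
      intro d hd
      unfold FP
      split_ifs <;> decide) hn (fun b => if b then Z else Y)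
    ⟨by
      intro k
      cases k
      · exact hs
      · exact hs', by
      intro k
      cases k
      · exact hY
      · exact hZ, by
      intro k l hkl
      cases k <;> cases l
      · exact absurd rfl hkl
      · exact hd
      · exact hd.symm
      · exact absurd rfl hkl⟩
  rw [Fintype.sum_bool] at h
  simp only [if_true, if_false, Bool.false_eq_true] at h
  linarith

/-- `ST n` with `n ≥ 10` has no packing `14`-colouring. -/
theorem no_coloring {n : ℕ} (hn : 10 ≤ n) :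
    ¬ ∃ col : Vert n → ℕ, IsPackingColoring (ST n) 14 col := by
  classical
  rintro ⟨col, h1, h2⟩
  obtain ⟨k, rfl⟩ : ∃ k, n = 4 + k := ⟨n - 4, by omega⟩
  -- the colour classes
  obtain ⟨X, hX⟩ : ∃ X : ℕ → Finset Pt, ∀ i p, p ∈ X i ↔
      ∃ h : ∃ t ∈ base (4 + k), p ∈ tri t, col ⟨p, h⟩ = i := by
    refine ⟨fun i => (pts (4 + k)).filter
      (fun p => ∃ h : ∃ t ∈ base (4 + k), p ∈ tri t, col ⟨p, h⟩ = i), fun i p => ?_⟩
    rw [Finset.mem_filter]
    exact ⟨fun h => h.2, fun h => ⟨mem_pts.2 h.1, h⟩⟩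
  have hsub : ∀ i, X i ⊆ pts (4 + k) := by
    intro i p hp
    exact mem_pts.2 ((hX i p).1 hp).1
  have hpk : ∀ i, ∀ u ∈ X i, ∀ v ∈ X i, u ≠ v → ¬ Wk (4 + k) i u v := by
    intro i u hu v hv huv hw
    obtain ⟨hu1, hu2⟩ := (hX i u).1 hu
    obtain ⟨hv1, hv2⟩ := (hX i v).1 hv
    have h3 := h2 ⟨u, hu1⟩ ⟨v, hv1⟩ (fun e => huv (congrArg Subtype.val e))
      (hu2.trans hv2.symm)
    rw [hu2] at h3
    exact absurd (Wk.dist (u := ⟨u, hu1⟩) (v := ⟨v, hv1⟩) hw) (not_le.2 h3)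
  have hdis : Disjoint (X 1) (X 2) := by
    rw [Finset.disjoint_left]
    intro p hp hp'
    obtain ⟨h3, h4⟩ := (hX 1 p).1 hp
    obtain ⟨h5, h6⟩ := (hX 2 p).1 hp'
    exact absurd (h4.symm.trans h6) (by decide)
  have hcov : (pts (4 + k)).card ≤ ∑ i ∈ Finset.Icc 1 14, (X i).card := by
    refine le_trans (Finset.card_le_card ?_) Finset.card_biUnion_le
    intro p hp
    have h3 := mem_pts.1 hp
    rw [Finset.mem_biUnion]
    exact ⟨col ⟨p, h3⟩, Finset.mem_Icc.2 (h1 _), (hX _ _).2 ⟨h3, rfl⟩⟩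
  have b12 := bound_pair (n := 4 + k) (k := k + 3) (by ring) (X 1) (X 2) (hsub 1) (hsub 2)
    (hpk 1) (hpk 2) hdis
  have b3 := bound_comp (c := 3) (j := 1) (n := 4 + k) (k := k + 2) (by decide)
    [0, 1, 0, -1] 3 5 1 (by decide) ⟨by decide, by decide, by decide, by decide, by decide⟩
    (by decide +kernel) (by ring) (X 3) (hsub 3) (hpk 3)
  have b4 := bound_single (c := 4) (m := 2) (n := 4 + k) (k := k + 2) (by decide)
    [] 1 1 0 (by decide) ⟨by decide, by decide, by decide, by decide, by decide⟩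
    (by decide) (by decide +kernel) (by ring) (X 4) (hsub 4) (hpk 4)
  have b5 := bound_single (c := 5) (m := 2) (n := 4 + k) (k := k + 2) (by decide)
    [0, 2, 1, 0, -1, -2] 7 6 2 (by decide)
    ⟨by decide, by decide, by decide, by decide, by decide⟩
    (by decide) (by decide +kernel) (by ring) (X 5) (hsub 5) (hpk 5)
  have b6 := bound_comp (c := 6) (j := 2) (n := 4 + k) (k := k + 1) (by decide)
    [0, 5, 3, 1, -1, -3, -5] 16 33 5 (by decide)
    ⟨by decide, by decide, by decide, by decide, by decide⟩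
    (by decide +kernel) (by ring) (X 6) (hsub 6) (hpk 6)
  have b7 := bound_comp (c := 7) (j := 2) (n := 4 + k) (k := k + 1) (by decide)
    [0, 7, 5, 3, 0, -3, -5, -7] 15 25 7 (by decide)
    ⟨by decide, by decide, by decide, by decide, by decide⟩
    (by decide +kernel) (by ring) (X 7) (hsub 7) (hpk 7)
  have b8 := bound_single (c := 8) (m := 3) (n := 4 + k) (k := k + 1) (by decide)
    [] 1 1 0 (by decide) ⟨by decide, by decide, by decide, by decide, by decide⟩
    (by decide) (by decide +kernel) (by ring) (X 8) (hsub 8) (hpk 8)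
  have b9 := bound_single (c := 9) (m := 3) (n := 4 + k) (k := k + 1) (by decide)
    [] 1 1 0 (by decide) ⟨by decide, by decide, by decide, by decide, by decide⟩
    (by decide) (by decide +kernel) (by ring) (X 9) (hsub 9) (hpk 9)
  have b10 := bound_single (c := 10) (m := 3) (n := 4 + k) (k := k + 1) (by decide)
    [0, 9, 7, 5, 3, 1, -1, -3, -5, -7, -9] 28 27 9 (by decide)
    ⟨by decide, by decide, by decide, by decide, by decide⟩
    (by decide) (by decide +kernel) (by ring) (X 10) (hsub 10) (hpk 10)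
  have b11 := bound_single (c := 11) (m := 3) (n := 4 + k) (k := k + 1) (by decide)
    [0, 2, 2, 2, 1, 0, 0, 0, -1, -2, -2, -2] 7 6 2 (by decide)
    ⟨by decide, by decide, by decide, by decide, by decide⟩
    (by decide) (by decide +kernel) (by ring) (X 11) (hsub 11) (hpk 11)
  have b12' := bound_single (c := 12) (m := 3) (n := 4 + k) (k := k + 1) (by decide)
    [0, 1, 1, 1, 1, 0, 0, 0, 0, -1, -1, -1, -1] 4 3 1 (by decide)
    ⟨by decide, by decide, by decide, by decide, by decide⟩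
    (by decide) (by decide +kernel) (by ring) (X 12) (hsub 12) (hpk 12)
  have b13 := bound_single (c := 13) (m := 3) (n := 4 + k) (k := k + 1) (by decide)
    [0, 1, 1, 1, 1, 0, 0, 0, 0, 0, -1, -1, -1, -1] 4 3 1 (by decide)
    ⟨by decide, by decide, by decide, by decide, by decide⟩
    (by decide) (by decide +kernel) (by ring) (X 13) (hsub 13) (hpk 13)
  have b14 := bound_comp (c := 14) (j := 3) (n := 4 + k) (k := k) (by decide)
    [0, 8, 7, 6, 5, 4, 3, 1, -1, -3, -4, -5, -6, -7, -8] 16 29 8 (by decide)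
    ⟨by decide, by decide, by decide, by decide, by decide⟩
    (by decide +kernel) (by ring) (X 14) (hsub 14) (hpk 14)
  have hcov' : ((pts (4 + k)).card : ℤ) ≤ ∑ i ∈ Finset.Icc 1 14, ((X i).card : ℤ) := by
    exact_mod_cast hcov
  have hsum : ∑ i ∈ Finset.Icc 1 14, ((X i).card : ℤ) =
      (X 1).card + (X 2).card + (X 3).card + (X 4).card + (X 5).card + (X 6).card +
      (X 7).card + (X 8).card + (X 9).card + (X 10).card + (X 11).card + (X 12).card +
      (X 13).card + (X 14).card := by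
    have e : Finset.Icc 1 14 = {1, 2, 3, 4, 5, 6, 7, 8, 9, 10, 11, 12, 13, 14} := by decide
    rw [e]
    simp
    ring
  rw [hsum] at hcov'
  have hp := pts_card (4 + k)
  have hp' : (3 : ℤ) ^ (4 + k + 1) + 3 ≤ 2 * ((pts (4 + k)).card : ℤ) := by exact_mod_cast hp
  obtain ⟨T, hT⟩ : ∃ T : ℤ, T = 3 ^ k := ⟨_, rfl⟩
  have hT' : 729 ≤ T := by
    rw [hT]
    have : (3 : ℤ) ^ 6 ≤ 3 ^ k := pow_le_pow_right₀ (by norm_num) (by omega)
    linarith
  have e1 : (3 : ℤ) ^ (k + 1) = 3 * T := by rw [hT]; ring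
  have e2 : (3 : ℤ) ^ (k + 2) = 9 * T := by rw [hT]; ring
  have e3 : (3 : ℤ) ^ (k + 3) = 27 * T := by rw [hT]; ring
  have e5 : (3 : ℤ) ^ (4 + k + 1) = 243 * T := by rw [hT]; ring
  rw [e3] at b12
  rw [e2] at b3 b4 b5
  rw [e1] at b6 b7 b8 b9 b10 b11 b12' b13
  rw [← hT] at b14
  rw [e5] at hp'
  linarith

end Pool.Agent.Helper29.SierLow
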