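import Pool.Agent.Helper29.SierLow.Base

/-!
# Lower bound for the packing chromatic number of Sierpinski triangle graphs: the colours 1 and 2

The inequality for a `1`-packing and a `2`-packing (disjoint) in `ST 1`.
-/

set_option autoImplicit false

namespace Pool.Agent.Helper29.SierLow

open Pool.Agent.Helper32.SierTri

/-- The radii. -/
def cP : Bool → ℕ
  | false => 1
  | true => 2

/-- The potential. -/
def FP (d : Bool → ℕ) : ℤ :=
  if d false = 0 then (if d true = 1 then 1 else if d true = 2 then -1 else 0) else 0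

/-- The lower bound for the potential at the extreme vertex `i`. -/
def GP (A B : Finset Pt) (i : Fin 3) : ℤ :=
  if K 1 i ∈ A then (if ∃ p ∈ B, D 1 i p ≤ 1 then 1 else -1) else 0

/-- The finite check. -/
def chkP (A B : Finset Pt) : Prop :=
  (∀ t ∈ base 1, (A ∩ tri t).card ≤ 1) → B.card ≤ 1 → Disjoint A B →
    4 * (2 * ((A.card : ℤ) + B.card) -
      ((if K 1 0 ∈ A then 1 else 0) + (if K 1 0 ∈ B then 1 else 0) +
      ((if K 1 1 ∈ A then 1 else 0) + (if K 1 1 ∈ B then 1 else 0)) +
      ((if K 1 2 ∈ A then 1 else 0) + (if K 1 2 ∈ B then 1 else 0)))) ≤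
    18 + 2 * (GP A B 0 + GP A B 1 + GP A B 2)

instance (A B : Finset Pt) : Decidable (chkP A B) := by
  unfold chkP
  infer_instance

set_option maxRecDepth 100000 in
theorem chkP_all : ∀ A ∈ (pts 1).powerset, ∀ B ∈ (pts 1).powerset, chkP A B := by
  decide +kernel

theorem FP_glue (x y : Bool → ℕ) (h : ∀ k, (x k = 0 ∧ y k = 0) ∨
    (1 ≤ x k ∧ x k ≤ cP k ∧ y k = cP k + 1 - x k)) : FP x + FP y ≤ 0 := by
  have h1 := h false
  have h2 := h true
  simp only [cP] at h1 h2
  unfold FP
  rcases h1 with ⟨h1, h1'⟩ | ⟨h1, h1', h1''⟩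
  · rw [if_pos h1, if_pos h1']
    rcases h2 with ⟨h2, h2'⟩ | ⟨h2, h2', h2''⟩
    · rw [h2, h2']
      decide
    · have h3 : x true = 1 ∨ x true = 2 := by omega
      rcases h3 with h3 | h3
      · rw [h2'', h3]
        decide
      · rw [h2'', h3]
        decide
  · rw [if_neg (by omega), if_neg (by omega)]
    decide

theorem base_pair (X : Bool → Finset Pt) (hX : Pk cP 1 X) : Ineq cP FP 4 9 1 X := by
  intro d hd
  have hA : ∀ t ∈ base 1, (X false ∩ tri t).card ≤ 1 := by
    intro t ht
    rw [Finset.card_le_one]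
    intro u hu v hv
    by_contra huv
    rw [Finset.mem_inter] at hu hv
    exact hX.pk false u hu.1 v hv.1 huv
      (.step (.refl (hX.sub false hu.1) 0) ht hu.2 hv.2)
  have hB : (X true).card ≤ 1 := by
    rw [Finset.card_le_one]
    intro u hu v hv
    by_contra huv
    exact hX.pk true u hu v hv huv (wk_diam (hX.sub true hu) (hX.sub true hv))
  have h1 := chkP_all (X false) (Finset.mem_powerset.2 (hX.sub false)) (X true)
    (Finset.mem_powerset.2 (hX.sub true)) hA hB (hX.dis false true (by decide))
  have h2 : ∀ i, GP (X false) (X true) i ≤ FP (d i) := by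
    intro i
    unfold GP FP
    rcases hd i false with ⟨h3, h4⟩ | ⟨h3, h4, h5⟩
    · rw [if_pos h4, if_pos h3]
      rcases hd i true with ⟨-, h7⟩ | ⟨h6, h7, h8⟩
      · exact absurd h7 (Finset.disjoint_left.1 (hX.dis false true (by decide)) h4)
      · split_ifs with a1 a2 a3
        · exact le_refl _
        · exfalso
          obtain ⟨p, hp, hp'⟩ := a1
          have h9 : d i true = 2 := a3
          rw [h9] at h8
          exact h8 p hp ((wk_corner (hX.sub true hp) i).mono hp')
        · exfalso
          have h9 : d i true ≤ 2 := h7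
          omega
        · decide
        · exact le_refl _
        · decide
    · rw [if_neg (by
        intro h6
        exact h5 _ h6 (.refl (K_mem 1 i) _)), if_neg (by omega)]
  have e0 := h2 0
  have e1 := h2 1
  have e2 := h2 2
  have hs : ∀ g : Bool → ℤ, ∑ k, g k = g false + g true := by
    intro g
    rw [Fintype.sum_bool]
    exact add_comm _ _
  simp only [Fin.sum_univ_three, zc, hs]
  linarith

end Pool.Agent.Helper29.SierLow
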