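import Pool.Agent.Helper29.SierLow.Geo

/-!
# Lower bound for the packing chromatic number of Sierpinski triangle graphs: the induction step

`X k` is a `c k`-packing in `ST n`, for each `k : ι`.  The inequality `Ineq` bounds the number of vertices of all `X k` by
`3 ^ n` times a constant and potentials `F`, which depend on the distances of the extreme vertices from the `X k`.
-/

set_option autoImplicit false

namespace Pool.Agent.Helper29.SierLow

open Pool.Agent.Helper32.SierTri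

/-- The part of `X` in the copy `i`. -/
def part (n : ℕ) (i : Fin 3) (X : Finset Pt) : Finset Pt :=
  (pts n).filter fun u => u + K n i ∈ X

theorem mem_part {n : ℕ} {i : Fin 3} {X : Finset Pt} {u : Pt} :
    u ∈ part n i X ↔ u ∈ pts n ∧ u + K n i ∈ X := by
  unfold part
  rw [Finset.mem_filter]

theorem copy_inter {n : ℕ} {u v : Pt} (hu : u ∈ pts n) (hv : v ∈ pts n) {i j : Fin 3}
    (hij : i ≠ j) (h : u + K n i = v + K n j) : u = K n j ∧ v = K n i := by
  have h1 := pts_bnd hu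
  have h2 := pts_bnd hv
  obtain ⟨x, y⟩ := u
  obtain ⟨x', y'⟩ := v
  simp only at h1 h2
  fin_cases i <;> fin_cases j <;>
    simp only [K, Prod.mk_add_mk, Prod.mk.injEq, Fin.zero_eta, Fin.mk_one, Fin.reduceFinMk,
      ne_eq, not_true_eq_false] at h hij ⊢ <;> omega

/-- The part of `X` in the copy `i`, moved back. -/
def cop (n : ℕ) (i : Fin 3) (X : Finset Pt) : Finset Pt := (part n i X).image (· + K n i)

theorem card_cop (n : ℕ) (i : Fin 3) (X : Finset Pt) :
    (cop n i X).card = (part n i X).card :=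
  Finset.card_image_of_injective _ (add_left_injective _)

theorem mem_cop {n : ℕ} {i : Fin 3} {X : Finset Pt} {p : Pt} :
    p ∈ cop n i X ↔ p ∈ X ∧ ∃ u ∈ pts n, p = u + K n i := by
  unfold cop
  rw [Finset.mem_image]
  constructor
  · rintro ⟨u, hu, rfl⟩
    rw [mem_part] at hu
    exact ⟨hu.2, u, hu.1, rfl⟩
  · rintro ⟨h, u, hu, rfl⟩
    exact ⟨u, mem_part.2 ⟨hu, h⟩, rfl⟩

theorem glue_mem_cop {n : ℕ} {i j : Fin 3} {X : Finset Pt} (h : K n i + K n j ∈ X) :
    K n i + K n j ∈ cop n i X ∧ K n i + K n j ∈ cop n j X :=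
  ⟨mem_cop.2 ⟨h, K n j, K_mem n j, add_comm _ _⟩, mem_cop.2 ⟨h, K n i, K_mem n i, rfl⟩⟩

theorem glue_ne (n : ℕ) : K n 0 + K n 2 ≠ K n 1 + K n 2 := by
  intro h
  have h1 := congrArg Prod.fst h
  have h2 : 0 < 2 ^ n := by positivity
  have h3 : (0 : ℕ) = 2 ^ n := by simpa [K] using h1
  exact h2.ne h3

theorem card_part {n : ℕ} {X : Finset Pt} (hX : X ⊆ pts (n + 1)) :
    X.card + ((if K n 0 + K n 1 ∈ X then 1 else 0) + (if K n 0 + K n 2 ∈ X then 1 else 0) +
      (if K n 1 + K n 2 ∈ X then 1 else 0)) ≤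
    (part n 0 X).card + (part n 1 X).card + (part n 2 X).card := by
  have h1 : X ⊆ cop n 0 X ∪ cop n 1 X ∪ cop n 2 X := by
    intro p hp
    obtain ⟨i, u, hu, rfl⟩ := mem_pts_succ.1 (hX hp)
    have h2 : u + K n i ∈ cop n i X := mem_cop.2 ⟨hp, u, hu, rfl⟩
    rw [Finset.mem_union, Finset.mem_union]
    fin_cases i
    · exact Or.inl (Or.inl h2)
    · exact Or.inl (Or.inr h2)
    · exact Or.inr h2
  have h2 := Finset.card_le_card h1
  have h3 := Finset.card_union_add_card_inter (cop n 0 X) (cop n 1 X)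
  have h4 := Finset.card_union_add_card_inter (cop n 0 X ∪ cop n 1 X) (cop n 2 X)
  rw [card_cop, card_cop] at h3
  rw [card_cop] at h4
  have h5 : (if K n 0 + K n 1 ∈ X then 1 else 0) ≤ (cop n 0 X ∩ cop n 1 X).card := by
    split_ifs with h
    · exact Finset.card_pos.2 ⟨_, Finset.mem_inter.2 (glue_mem_cop h)⟩
    · exact Nat.zero_le _
  have h6 : (if K n 0 + K n 2 ∈ X then 1 else 0) + (if K n 1 + K n 2 ∈ X then 1 else 0) ≤
      ((cop n 0 X ∪ cop n 1 X) ∩ cop n 2 X).card := by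
    have e1 : K n 0 + K n 2 ∈ X → K n 0 + K n 2 ∈ (cop n 0 X ∪ cop n 1 X) ∩ cop n 2 X := fun h =>
      Finset.mem_inter.2 ⟨Finset.mem_union_left _ (glue_mem_cop h).1, (glue_mem_cop h).2⟩
    have e2 : K n 1 + K n 2 ∈ X → K n 1 + K n 2 ∈ (cop n 0 X ∪ cop n 1 X) ∩ cop n 2 X := fun h =>
      Finset.mem_inter.2 ⟨Finset.mem_union_right _ (glue_mem_cop h).1, (glue_mem_cop h).2⟩
    by_cases a1 : K n 0 + K n 2 ∈ X
    · by_cases a2 : K n 1 + K n 2 ∈ X
      · rw [if_pos a1, if_pos a2]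
        exact Finset.one_lt_card.2 ⟨_, e1 a1, _, e2 a2, glue_ne n⟩
      · rw [if_pos a1, if_neg a2]
        exact Finset.card_pos.2 ⟨_, e1 a1⟩
    · rw [if_neg a1, zero_add]
      split_ifs with a2
      · exact Finset.card_pos.2 ⟨_, e2 a2⟩
      · exact Nat.zero_le _
  omega

theorem cop_inter {n : ℕ} {X : Finset Pt} {i j : Fin 3} (hij : i ≠ j) :
    cop n i X ∩ cop n j X ⊆ {K n i + K n j} := by
  intro p hp
  rw [Finset.mem_inter, mem_cop, mem_cop] at hp
  obtain ⟨⟨-, u, hu, hu'⟩, -, v, hv, hv'⟩ := hp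
  obtain ⟨h1, h2⟩ := copy_inter hu hv hij (hu'.symm.trans hv')
  rw [Finset.mem_singleton, hv', h2]

/-- The number of vertices of `ST n` is at least `(3 ^ (n + 1) + 3) / 2`. -/
theorem pts_card (n : ℕ) : 3 ^ (n + 1) + 3 ≤ 2 * (pts n).card := by
  induction n with
  | zero => decide
  | succ n ih =>
    have h0 : ∀ i, part n i (pts (n + 1)) = pts n := by
      intro i
      ext u
      rw [mem_part]
      exact ⟨fun h => h.1, fun h => ⟨h, pts_shift h i⟩⟩
    have h1 : cop n 0 (pts (n + 1)) ∪ cop n 1 (pts (n + 1)) ∪ cop n 2 (pts (n + 1)) ⊆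
        pts (n + 1) := by
      intro p hp
      rw [Finset.mem_union, Finset.mem_union, mem_cop, mem_cop, mem_cop] at hp
      rcases hp with (hp | hp) | hp <;> exact hp.1
    have h2 := Finset.card_le_card h1
    have h3 := Finset.card_union_add_card_inter (cop n 0 (pts (n + 1))) (cop n 1 (pts (n + 1)))
    have h4 := Finset.card_union_add_card_inter (cop n 0 (pts (n + 1)) ∪ cop n 1 (pts (n + 1)))
      (cop n 2 (pts (n + 1)))
    rw [card_cop, card_cop, h0, h0] at h3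
    rw [card_cop, h0] at h4
    have h5 : (cop n 0 (pts (n + 1)) ∩ cop n 1 (pts (n + 1))).card ≤ 1 :=
      (Finset.card_le_card (cop_inter (by decide))).trans (Finset.card_singleton _).le
    have h6 : ((cop n 0 (pts (n + 1)) ∪ cop n 1 (pts (n + 1))) ∩ cop n 2 (pts (n + 1))).card ≤
        2 := by
      rw [Finset.union_inter_distrib_right]
      refine (Finset.card_union_le _ _).trans ?_
      exact Nat.add_le_add
        ((Finset.card_le_card (cop_inter (by decide))).trans (Finset.card_singleton _).le)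
        ((Finset.card_le_card (cop_inter (by decide))).trans (Finset.card_singleton _).le)
    have h7 : (3 : ℕ) ^ (n + 1 + 1) = 3 * 3 ^ (n + 1) := by ring
    omega

/-! ### The induction step -/

section

variable {ι : Type} [Fintype ι] (c : ι → ℕ)

/-- `X k` is a `c k`-packing in `ST n`. -/
structure Pk (n : ℕ) (X : ι → Finset Pt) : Prop where
  sub : ∀ k, X k ⊆ pts n
  pk : ∀ k, ∀ u ∈ X k, ∀ v ∈ X k, u ≠ v → ¬ Wk n (c k) u v
  dis : ∀ k l, k ≠ l → Disjoint (X k) (X l)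

/-- `d k` is a lower bound for the distance of the extreme vertex `i` from `X k` (with the value `0` only if the extreme
vertex belongs to `X k`). -/
def Val (n : ℕ) (i : Fin 3) (X : ι → Finset Pt) (d : ι → ℕ) : Prop :=
  ∀ k, (d k = 0 ∧ K n i ∈ X k) ∨
    (1 ≤ d k ∧ d k ≤ c k ∧ ∀ u ∈ X k, ¬ Wk n (d k - 1) (K n i) u)

/-- The number of `X k` which contain the point `p`. -/
def zc (p : Pt) (X : ι → Finset Pt) : ℤ := ∑ k, if p ∈ X k then 1 else 0

/-- The inequality. -/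
def Ineq (F : (ι → ℕ) → ℤ) (q a : ℤ) (n : ℕ) (X : ι → Finset Pt) : Prop :=
  ∀ d : Fin 3 → ι → ℕ, (∀ i, Val c n i X (d i)) →
    q * (2 * ∑ k, ((X k).card : ℤ) - ∑ i, zc (K n i) X) ≤ 2 * a + 2 * ∑ i, F (d i)

variable {c}

omit [Fintype ι] in
theorem Pk.part {n : ℕ} {X : ι → Finset Pt} (h : Pk c (n + 1) X) (i : Fin 3) :
    Pk c n fun k => part n i (X k) where
  sub k := Finset.filter_subset _ _
  pk k u hu v hv huv hw := by
    rw [mem_part] at hu hv
    exact h.pk k _ hu.2 _ hv.2 (fun e => huv (add_right_cancel e)) (hw.shift i)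
  dis k l hkl := by
    rw [Finset.disjoint_left]
    intro u hu hu'
    rw [mem_part] at hu hu'
    exact Finset.disjoint_left.1 (h.dis k l hkl) hu.2 hu'.2

theorem exists_max {n : ℕ} {X : Finset Pt} {p : Pt} (hp : p ∉ X) {m : ℕ} (hm : 1 ≤ m) :
    ∃ d, 1 ≤ d ∧ d ≤ m ∧ (∀ u ∈ X, ¬ Wk n (d - 1) p u) ∧ (d = m ∨ ∃ u ∈ X, Wk n d p u) := by
  classical
  have hex : ∃ d, 1 ≤ d ∧ (d = m ∨ ∃ u ∈ X, Wk n d p u) := ⟨m, hm, Or.inl rfl⟩
  refine ⟨Nat.find hex, (Nat.find_spec hex).1, Nat.find_min' hex ⟨hm, Or.inl rfl⟩, ?_,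
    (Nat.find_spec hex).2⟩
  intro u hu hw
  have h1 := (Nat.find_spec hex).1
  rcases Nat.eq_or_lt_of_le h1 with h2 | h2
  · rw [← h2] at hw
    exact hp (hw.zero ▸ hu)
  · exact Nat.find_min hex (Nat.sub_lt (by omega) one_pos)
      ⟨by omega, Or.inr ⟨u, hu, hw⟩⟩

theorem glue_one {n : ℕ} {m : ℕ} (hm : 1 ≤ m) {X : Finset Pt}
    (h : ∀ u ∈ X, ∀ v ∈ X, u ≠ v → ¬ Wk (n + 1) m u v) {i j : Fin 3} (hij : i ≠ j) :
    ∃ x y : ℕ, ((x = 0 ∧ y = 0) ∨ (1 ≤ x ∧ x ≤ m ∧ y = m + 1 - x)) ∧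
      ((x = 0 ∧ K n j ∈ part n i X) ∨
        (1 ≤ x ∧ x ≤ m ∧ ∀ u ∈ part n i X, ¬ Wk n (x - 1) (K n j) u)) ∧
      ((y = 0 ∧ K n i ∈ part n j X) ∨
        (1 ≤ y ∧ y ≤ m ∧ ∀ u ∈ part n j X, ¬ Wk n (y - 1) (K n i) u)) := by
  by_cases h0 : K n i + K n j ∈ X
  · refine ⟨0, 0, Or.inl ⟨rfl, rfl⟩, Or.inl ⟨rfl, ?_⟩, Or.inl ⟨rfl, ?_⟩⟩
    · rw [mem_part, add_comm]
      exact ⟨K_mem n j, h0⟩
    · rw [mem_part]
      exact ⟨K_mem n i, h0⟩
  · have h1 : K n j ∉ part n i X := by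
      rw [mem_part, add_comm]
      exact fun h2 => h0 h2.2
    obtain ⟨d, d1, d2, d3, d4⟩ := exists_max (n := n) h1 hm
    refine ⟨d, m + 1 - d, Or.inr ⟨d1, d2, rfl⟩, Or.inr ⟨d1, d2, d3⟩,
      Or.inr ⟨by omega, by omega, ?_⟩⟩
    intro w hw hwk
    have hw' := mem_part.1 hw
    rcases d4 with d4 | ⟨u, hu, hu2⟩
    · have h3 : m + 1 - d - 1 = 0 := by omega
      rw [h3] at hwk
      rw [← hwk.zero] at hw'
      exact h0 hw'.2
    · have hu' := mem_part.1 hu
      have h3 : u + K n i ≠ w + K n j := by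
        intro e
        rw [(copy_inter hu'.1 hw'.1 hij e).1] at hu
        exact h1 hu
      refine h _ hu'.2 _ hw'.2 h3 ?_
      have e1 := hu2.symm.shift i
      have e2 := hwk.shift j
      rw [add_comm (K n i) (K n j)] at e2
      exact (e1.trans e2).mono (by omega)

omit [Fintype ι] in
theorem glue_types {n : ℕ} {X : ι → Finset Pt} (h : Pk c (n + 1) X) (hc : ∀ k, 1 ≤ c k)
    {F : (ι → ℕ) → ℤ}
    (hF : ∀ x y : ι → ℕ, (∀ k, (x k = 0 ∧ y k = 0) ∨
      (1 ≤ x k ∧ x k ≤ c k ∧ y k = c k + 1 - x k)) → F x + F y ≤ 0)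
    {i j : Fin 3} (hij : i ≠ j) : ∃ x y : ι → ℕ, Val c n j (fun k => part n i (X k)) x ∧
      Val c n i (fun k => part n j (X k)) y ∧ F x + F y ≤ 0 := by
  choose x y hxy hx hy using fun k => glue_one (hc k) (h.pk k) hij
  exact ⟨x, y, hx, hy, hF x y hxy⟩

theorem zc_part (n : ℕ) (X : ι → Finset Pt) (i j : Fin 3) :
    zc (K n j) (fun k => part n i (X k)) = zc (K n i + K n j) X := by
  unfold zc
  refine Finset.sum_congr rfl fun k _ => if_congr ?_ rfl rfl
  change K n j ∈ part n i (X k) ↔ _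
  rw [mem_part, add_comm (K n j)]
  exact ⟨fun h => h.2, fun h => ⟨K_mem n j, h⟩⟩

theorem step {F : (ι → ℕ) → ℤ} {q a : ℤ} {n : ℕ} (hq : 0 ≤ q) (hc : ∀ k, 1 ≤ c k)
    (hF : ∀ x y : ι → ℕ, (∀ k, (x k = 0 ∧ y k = 0) ∨
      (1 ≤ x k ∧ x k ≤ c k ∧ y k = c k + 1 - x k)) → F x + F y ≤ 0)
    (ih : ∀ X, Pk c n X → Ineq c F q a n X) (X : ι → Finset Pt) (hX : Pk c (n + 1) X) :
    Ineq c F q (3 * a) (n + 1) X := by
  intro d hd
  obtain ⟨x01, x10, v01, v10, f01⟩ := glue_types hX hc hF (i := 0) (j := 1) (by decide)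
  obtain ⟨x02, x20, v02, v20, f02⟩ := glue_types hX hc hF (i := 0) (j := 2) (by decide)
  obtain ⟨x12, x21, v12, v21, f12⟩ := glue_types hX hc hF (i := 1) (j := 2) (by decide)
  have hout : ∀ i, Val c n i (fun k => part n i (X k)) (d i) := by
    intro i k
    rcases hd i k with ⟨h1, h2⟩ | ⟨h1, h2, h3⟩
    · left
      rw [K_succ] at h2
      exact ⟨h1, mem_part.2 ⟨K_mem n i, h2⟩⟩
    · right
      refine ⟨h1, h2, fun u hu hw => ?_⟩
      have h4 := hw.shift i
      rw [← K_succ] at h4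
      exact h3 _ (mem_part.1 hu).2 h4
  have i0 := ih _ (hX.part 0) ![d 0, x01, x02] (by
    intro i
    fin_cases i
    · exact hout 0
    · exact v01
    · exact v02)
  have i1 := ih _ (hX.part 1) ![x10, d 1, x12] (by
    intro i
    fin_cases i
    · exact v10
    · exact hout 1
    · exact v12)
  have i2 := ih _ (hX.part 2) ![x20, x21, d 2] (by
    intro i
    fin_cases i
    · exact v20
    · exact v21
    · exact hout 2)
  simp only [Fin.sum_univ_three, Matrix.cons_val_zero, Matrix.cons_val_one, Matrix.cons_val,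
    zc_part] at i0 i1 i2
  have hcard : ∑ k, ((X k).card : ℤ) + (zc (K n 0 + K n 1) X + zc (K n 0 + K n 2) X +
      zc (K n 1 + K n 2) X) ≤ ∑ k, ((part n 0 (X k)).card : ℤ) +
      ∑ k, ((part n 1 (X k)).card : ℤ) + ∑ k, ((part n 2 (X k)).card : ℤ) := by
    unfold zc
    rw [← Finset.sum_add_distrib, ← Finset.sum_add_distrib, ← Finset.sum_add_distrib,
      ← Finset.sum_add_distrib, ← Finset.sum_add_distrib]
    refine Finset.sum_le_sum fun k _ => ?_
    have := card_part (hX.sub k)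
    exact_mod_cast this
  rw [add_comm (K n 1) (K n 0)] at i1
  rw [add_comm (K n 2) (K n 0), add_comm (K n 2) (K n 1)] at i2
  simp only [Fin.sum_univ_three, K_succ]
  nlinarith [mul_le_mul_of_nonneg_left hcard hq]

end

end Pool.Agent.Helper29.SierLow
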